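import Mathlib
import Pool.Agent.Helper64.HG.Stmts

/-! Isomorphisms with subdivided multigraphs: generic lemma for MP_866009_co. -/

set_option autoImplicit false

namespace Pool.Agent.Helper64.HG

variable {V : Type}

theorem iso_anti_symm {G : SimpleGraph V} {A B : List V} (h : Anti G A B) : Anti G B A :=
  fun b hb a ha => ⟨fun e => (h a ha b hb).1 e.symm, fun e => (h a ha b hb).2 e.symm⟩

/-- the condition of `Link` at the first end, in terms of indices -/
theorem iso_head {G : SimpleGraph V} (u : V) (A : List V) (hn : A.Nodup) :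
    (∀ x ∈ A, G.Adj u x ↔ A.head? = some x) ↔
      ∀ (i : ℕ) (h : i < A.length), (G.Adj u A[i] ↔ i = 0) := by
  have key : ∀ (i : ℕ) (h : i < A.length), (A.head? = some A[i] ↔ i = 0) := by
    intro i h
    have h0 : 0 < A.length := by omega
    rw [List.head?_eq_getElem?, List.getElem?_eq_getElem h0, Option.some.injEq, hn.getElem_inj_iff]
    exact eq_comm
  constructor
  · intro H i h
    rw [H _ (List.getElem_mem h), key i h]
  · intro H x hx
    obtain ⟨i, h, rfl⟩ := List.mem_iff_getElem.1 hx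
    rw [H i h, key i h]

/-- the condition of `Link` at the last end, in terms of indices -/
theorem iso_last {G : SimpleGraph V} (w : V) (A : List V) (hn : A.Nodup) :
    (∀ x ∈ A, G.Adj w x ↔ A.getLast? = some x) ↔
      ∀ (i : ℕ) (h : i < A.length), (G.Adj w A[i] ↔ i + 1 = A.length) := by
  have key : ∀ (i : ℕ) (h : i < A.length), (A.getLast? = some A[i] ↔ i + 1 = A.length) := by
    intro i h
    have h0 : A.length - 1 < A.length := by omega
    rw [List.getLast?_eq_getElem?, List.getElem?_eq_getElem h0, Option.some.injEq,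
      hn.getElem_inj_iff]
    omega
  constructor
  · intro H i h
    rw [H _ (List.getElem_mem h), key i h]
  · intro H x hx
    obtain ⟨i, h, rfl⟩ := List.mem_iff_getElem.1 hx
    rw [H i h, key i h]

/-- `Link` in terms of indices -/
theorem iso_link {G : SimpleGraph V} (u w : V) (A : List V) :
    Link G u A w ↔ (A ≠ [] ∧ IP G A ∧ u ∉ A ∧ w ∉ A ∧
      (∀ (i : ℕ) (h : i < A.length), (G.Adj u A[i] ↔ i = 0)) ∧
      (∀ (i : ℕ) (h : i < A.length), (G.Adj w A[i] ↔ i + 1 = A.length))) := by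
  constructor
  · rintro ⟨h1, h2, h3, h4, h5, h6⟩
    exact ⟨h1, h2, h3, h4, (iso_head u A h2.1).1 h5, (iso_last w A h2.1).1 h6⟩
  · rintro ⟨h1, h2, h3, h4, h5, h6⟩
    exact ⟨h1, h2, h3, h4, (iso_head u A h2.1).2 h5, (iso_last w A h2.1).2 h6⟩

theorem iso_rev {G : SimpleGraph V} {u w : V} {A : List V} (h : Link G u A w) :
    Link G w A.reverse u := by
  rw [iso_link] at h ⊢
  obtain ⟨h1, h2, h3, h4, h5, h6⟩ := h
  refine ⟨by simpa using h1, ⟨by simpa using h2.1, ?_⟩, by simpa using h4, by simpa using h3, ?_, ?_⟩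
  · intro i j hi hj hij
    rw [List.length_reverse] at hi hj
    rw [List.getElem_reverse, List.getElem_reverse, G.adj_comm,
      h2.2 (A.length - 1 - j) (A.length - 1 - i) (by omega) (by omega) (by omega)]
    omega
  · intro i hi
    rw [List.length_reverse] at hi
    rw [List.getElem_reverse, h6 (A.length - 1 - i) (by omega)]
    omega
  · intro i hi
    rw [List.length_reverse] at hi
    rw [List.getElem_reverse, h5 (A.length - 1 - i) (by omega), List.length_reverse]
    omega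

/-- a subdivided multigraph inside `G` -/
structure PSys {n m : ℕ} (G : SimpleGraph V) (src dst : Fin m → Fin n) (len : Fin m → ℕ)
    (b : Fin n → V) (A : Fin m → List V) : Prop where
  inj : Function.Injective b
  len : ∀ e, (A e).length + 1 = len e
  link : ∀ e, A e ≠ [] → Link G (b (src e)) (A e) (b (dst e))
  anti : ∀ e f, e ≠ f → Anti G (A e) (A f)
  antib : ∀ k e, k ≠ src e → k ≠ dst e → Anti G [b k] (A e)
  adjb : ∀ k l, G.Adj (b k) (b l) ↔
    ∃ e, A e = [] ∧ ((src e = k ∧ dst e = l) ∨ (src e = l ∧ dst e = k))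
  cov : ∀ v, (∃ k, v = b k) ∨ ∃ e, v ∈ A e

section graph

variable (P : Pat)

/-- the relation defining the graph -/
def isoR (x y : P.Vert) : Prop := ∃ e : Fin P.m, ∃ i < P.len e, x = P.pt e i ∧ y = P.pt e (i + 1)

theorem iso_pt_inl (e : Fin P.m) (i : ℕ) (hi : i ≤ P.len e) (k : Fin P.n) :
    Sum.inl k = P.pt e i ↔ (i = 0 ∧ k = P.src e) ∨ (i ≠ 0 ∧ i = P.len e ∧ k = P.dst e) := by
  unfold Pat.pt
  by_cases h0 : i = 0
  · subst h0
    simp
  · by_cases h1 : i - 1 < P.len e - 1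
    · have h2 : i ≠ P.len e := by omega
      simp [h0, h1, h2]
    · have h2 : i = P.len e := by omega
      rw [if_neg h0, dif_neg h1, Sum.inl.injEq]
      have hne : P.len e ≠ 0 := by omega
      simp [h2, hne]

theorem iso_pt_inr (e : Fin P.m) (i : ℕ) (f : Fin P.m) (j : Fin (P.len f - 1)) :
    Sum.inr ⟨f, j⟩ = P.pt e i ↔ f = e ∧ i = (j : ℕ) + 1 := by
  unfold Pat.pt
  by_cases h0 : i = 0
  · subst h0
    simp
  · by_cases h1 : i - 1 < P.len e - 1
    · rw [if_neg h0, dif_pos h1, Sum.inr.injEq]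
      constructor
      · intro h
        have h2 : f = e := congrArg Sigma.fst h
        subst h2
        have h3 := eq_of_heq (Sigma.mk.inj h).2
        have h4 := congrArg Fin.val h3
        simp only at h4
        exact ⟨rfl, by omega⟩
      · rintro ⟨rfl, h⟩
        congr 1
        apply Fin.ext
        simp only
        omega
    · rw [if_neg h0, dif_neg h1]
      constructor
      · intro h
        exact absurd h (by simp)
      · rintro ⟨rfl, h⟩
        have := j.2
        omega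

theorem iso_r_ll (k l : Fin P.n) :
    isoR P (Sum.inl k) (Sum.inl l) ↔ ∃ e, P.len e = 1 ∧ P.src e = k ∧ P.dst e = l := by
  constructor
  · rintro ⟨e, i, hi, h1, h2⟩
    rw [iso_pt_inl P e i hi.le] at h1
    rw [iso_pt_inl P e (i + 1) hi] at h2
    rcases h1 with ⟨h3, h4⟩ | ⟨h3, h4, h5⟩
    · rcases h2 with ⟨h6, h7⟩ | ⟨h6, h7, h8⟩
      · omega
      · exact ⟨e, by omega, h4.symm, h8.symm⟩
    · omega
  · rintro ⟨e, h1, h2, h3⟩
    refine ⟨e, 0, by omega, ?_, ?_⟩
    · rw [iso_pt_inl P e 0 (by omega)]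
      exact Or.inl ⟨rfl, h2.symm⟩
    · rw [iso_pt_inl P e 1 (by omega)]
      exact Or.inr ⟨by omega, h1.symm, h3.symm⟩

theorem iso_r_lr (k : Fin P.n) (e : Fin P.m) (j : Fin (P.len e - 1)) :
    isoR P (Sum.inl k) (Sum.inr ⟨e, j⟩) ↔ P.src e = k ∧ (j : ℕ) = 0 := by
  constructor
  · rintro ⟨f, i, hi, h1, h2⟩
    rw [iso_pt_inl P f i hi.le] at h1
    rw [iso_pt_inr P f (i + 1)] at h2
    obtain ⟨rfl, h3⟩ := h2
    rcases h1 with ⟨h4, h5⟩ | ⟨h4, h5, h6⟩
    · exact ⟨h5.symm, by omega⟩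
    · omega
  · rintro ⟨h1, h2⟩
    have := j.2
    refine ⟨e, 0, by omega, ?_, ?_⟩
    · rw [iso_pt_inl P e 0 (by omega)]
      exact Or.inl ⟨rfl, h1.symm⟩
    · rw [iso_pt_inr P e 1]
      exact ⟨rfl, by omega⟩

theorem iso_r_rl (k : Fin P.n) (e : Fin P.m) (j : Fin (P.len e - 1)) :
    isoR P (Sum.inr ⟨e, j⟩) (Sum.inl k) ↔ P.dst e = k ∧ (j : ℕ) + 1 = P.len e - 1 := by
  constructor
  · rintro ⟨f, i, hi, h1, h2⟩
    rw [iso_pt_inr P f i] at h1
    rw [iso_pt_inl P f (i + 1) hi] at h2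
    obtain ⟨rfl, h3⟩ := h1
    rcases h2 with ⟨h4, h5⟩ | ⟨h4, h5, h6⟩
    · omega
    · exact ⟨h6.symm, by omega⟩
  · rintro ⟨h1, h2⟩
    have := j.2
    refine ⟨e, (j : ℕ) + 1, by omega, ?_, ?_⟩
    · rw [iso_pt_inr P e]
      exact ⟨rfl, rfl⟩
    · rw [iso_pt_inl P e _ (by omega)]
      exact Or.inr ⟨by omega, by omega, h1.symm⟩

theorem iso_r_rr (e : Fin P.m) (i : Fin (P.len e - 1)) (f : Fin P.m) (j : Fin (P.len f - 1)) :
    isoR P (Sum.inr ⟨e, i⟩) (Sum.inr ⟨f, j⟩) ↔ e = f ∧ (j : ℕ) = (i : ℕ) + 1 := by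
  constructor
  · rintro ⟨g, a, ha, h1, h2⟩
    rw [iso_pt_inr P g a] at h1
    rw [iso_pt_inr P g (a + 1)] at h2
    obtain ⟨rfl, h3⟩ := h1
    obtain ⟨h4, h5⟩ := h2
    exact ⟨h4.symm, by omega⟩
  · rintro ⟨rfl, h2⟩
    have := j.2
    refine ⟨e, (i : ℕ) + 1, by omega, ?_, ?_⟩
    · rw [iso_pt_inr P e]
      exact ⟨rfl, rfl⟩
    · rw [iso_pt_inr P e]
      exact ⟨rfl, by omega⟩

theorem iso_adj (x y : P.Vert) : P.graph.Adj x y ↔ x ≠ y ∧ (isoR P x y ∨ isoR P y x) := by
  unfold Pat.graph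
  rw [SimpleGraph.fromRel_adj]
  rfl

theorem iso_adj_ll (hP : ∀ e, P.src e ≠ P.dst e) (k l : Fin P.n) :
    P.graph.Adj (Sum.inl k) (Sum.inl l) ↔
      ∃ e, P.len e = 1 ∧ ((P.src e = k ∧ P.dst e = l) ∨ (P.src e = l ∧ P.dst e = k)) := by
  rw [iso_adj, iso_r_ll, iso_r_ll]
  constructor
  · rintro ⟨-, ⟨e, h⟩ | ⟨e, h⟩⟩
    · exact ⟨e, h.1, Or.inl h.2⟩
    · exact ⟨e, h.1, Or.inr h.2⟩
  · rintro ⟨e, h1, h2⟩
    refine ⟨?_, ?_⟩
    · intro h
      have h' : k = l := Sum.inl.inj h
      subst h'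
      rcases h2 with h2 | h2
      · exact hP e (h2.1.trans h2.2.symm)
      · exact hP e (h2.1.trans h2.2.symm)
    · rcases h2 with h2 | h2
      · exact Or.inl ⟨e, h1, h2⟩
      · exact Or.inr ⟨e, h1, h2⟩

theorem iso_adj_lr (k : Fin P.n) (e : Fin P.m) (j : Fin (P.len e - 1)) :
    P.graph.Adj (Sum.inl k) (Sum.inr ⟨e, j⟩) ↔
      ((P.src e = k ∧ (j : ℕ) = 0) ∨ (P.dst e = k ∧ (j : ℕ) + 1 = P.len e - 1)) := by
  rw [iso_adj, iso_r_lr, iso_r_rl]
  simp

theorem iso_adj_rr (e : Fin P.m) (i : Fin (P.len e - 1)) (f : Fin P.m) (j : Fin (P.len f - 1)) :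
    P.graph.Adj (Sum.inr ⟨e, i⟩) (Sum.inr ⟨f, j⟩) ↔
      (e = f ∧ ((j : ℕ) = (i : ℕ) + 1 ∨ (i : ℕ) = (j : ℕ) + 1)) := by
  rw [iso_adj, iso_r_rr, iso_r_rr]
  constructor
  · rintro ⟨-, ⟨h1, h2⟩ | ⟨h1, h2⟩⟩
    · exact ⟨h1, Or.inl h2⟩
    · exact ⟨h1.symm, Or.inr h2⟩
  · rintro ⟨rfl, h⟩
    refine ⟨?_, ?_⟩
    · intro h'
      have h3 : (⟨e, i⟩ : Σ e : Fin P.m, Fin (P.len e - 1)) = ⟨e, j⟩ := Sum.inr.inj h'
      have h4 := congrArg Fin.val (eq_of_heq (Sigma.mk.inj h3).2)
      omega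
    · rcases h with h | h
      · exact Or.inl ⟨rfl, h⟩
      · exact Or.inr ⟨rfl, h⟩

end graph

/-- from a system to an isomorphism -/
theorem iso_of {n m : ℕ} (G : SimpleGraph V) (src dst : Fin m → Fin n) (len : Fin m → ℕ)
    (b : Fin n → V) (A : Fin m → List V) (hP : ∀ e, src e ≠ dst e) (h : PSys G src dst len b A) :
    Nonempty (G ≃g (Pat.graph ⟨n, m, src, dst, len⟩)) := by
  classical
  set P : Pat := ⟨n, m, src, dst, len⟩ with hPd
  have hlen : ∀ (e : Fin m) (i : Fin (len e - 1)), (i : ℕ) < (A e).length := by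
    intro e i
    have h1 := i.2
    have h2 := h.len e
    omega
  let F : P.Vert → V := fun x => match x with
    | Sum.inl k => b k
    | Sum.inr ⟨e, i⟩ => (A e)[(i : ℕ)]'(hlen e i)
  have hFl : ∀ k, F (Sum.inl k) = b k := fun k => rfl
  have hFr : ∀ (e : Fin m) (i : Fin (len e - 1)), F (Sum.inr ⟨e, i⟩) = (A e)[(i : ℕ)]'(hlen e i) :=
    fun e i => rfl
  have hne : ∀ (k : Fin n) (e : Fin m) (x : V), x ∈ A e → b k ≠ x := by
    intro k e x hx
    have h0 : A e ≠ [] := List.ne_nil_of_mem hx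
    have hl := h.link e h0
    by_cases h1 : k = src e
    · intro hh
      rw [h1] at hh
      exact hl.2.2.1 (hh ▸ hx)
    · by_cases h2 : k = dst e
      · intro hh
        rw [h2] at hh
        exact hl.2.2.2.1 (hh ▸ hx)
      · exact (h.antib k e h1 h2 (b k) (by simp) x hx).1
  have hnodup : ∀ e, (A e).Nodup := by
    intro e
    by_cases h0 : A e = []
    · rw [h0]; exact List.nodup_nil
    · exact (h.link e h0).2.1.1
  have hinj : Function.Injective F := by
    rintro (k | ⟨e, i⟩) (l | ⟨f, j⟩) hxy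
    · rw [hFl, hFl] at hxy
      rw [h.inj hxy]
    · rw [hFl, hFr] at hxy
      exact absurd hxy (hne k f _ (List.getElem_mem _))
    · rw [hFl, hFr] at hxy
      exact absurd hxy.symm (hne l e _ (List.getElem_mem _))
    · rw [hFr, hFr] at hxy
      by_cases hef : e = f
      · subst hef
        have h1 := (hnodup e).getElem_inj_iff.1 hxy
        have h2 : i = j := Fin.ext h1
        rw [h2]
      · exact absurd hxy (h.anti e f hef _ (List.getElem_mem _) _ (List.getElem_mem _)).1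
  have hsurj : Function.Surjective F := by
    intro v
    rcases h.cov v with ⟨k, hk⟩ | ⟨e, he⟩
    · exact ⟨Sum.inl k, hk.symm⟩
    · obtain ⟨i, hi, hx⟩ := List.mem_iff_getElem.1 he
      have h2 := h.len e
      exact ⟨Sum.inr ⟨e, ⟨i, by show i < len e - 1; omega⟩⟩, hx⟩
  have hlr : ∀ (k : Fin n) (e : Fin m) (j : Fin (len e - 1)),
      G.Adj (b k) ((A e)[(j : ℕ)]'(hlen e j)) ↔
        ((src e = k ∧ (j : ℕ) = 0) ∨ (dst e = k ∧ (j : ℕ) + 1 = len e - 1)) := by
    intro k e j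
    have h0 : A e ≠ [] := List.ne_nil_of_mem (List.getElem_mem (hlen e j))
    have hl := (iso_link _ _ _).1 (h.link e h0)
    have h2 := h.len e
    by_cases h1 : src e = k
    · have h3 : dst e ≠ k := fun h4 => hP e (h1.trans h4.symm)
      subst h1
      rw [hl.2.2.2.2.1 j (hlen e j)]
      simp [h3]
    · by_cases h3 : dst e = k
      · subst h3
        rw [hl.2.2.2.2.2 j (hlen e j)]
        simp [h1]
        omega
      · have h4 := (h.antib k e (fun hh => h1 hh.symm) (fun hh => h3 hh.symm) (b k) (by simp) _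
          (List.getElem_mem (hlen e j))).2
        simp [h1, h3, h4]
  have hadj : ∀ x y : P.Vert, G.Adj (F x) (F y) ↔ P.graph.Adj x y := by
    rintro (k | ⟨e, i⟩) (l | ⟨f, j⟩)
    · rw [iso_adj_ll P hP k l, hFl, hFl, h.adjb k l]
      apply exists_congr
      intro e
      have h2 := h.len e
      have h3 : A e = [] ↔ P.len e = 1 := by
        show A e = [] ↔ len e = 1
        rw [← List.length_eq_zero_iff]
        omega
      rw [h3]
    · rw [iso_adj_lr P k f j, hFl, hFr]
      exact hlr k f j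
    · rw [G.adj_comm, P.graph.adj_comm, iso_adj_lr P l e i, hFl, hFr]
      exact hlr l e i
    · rw [iso_adj_rr P e i f j, hFr, hFr]
      by_cases hef : e = f
      · subst hef
        have h0 : A e ≠ [] := List.ne_nil_of_mem (List.getElem_mem (hlen e i))
        have hip := (h.link e h0).2.1.2
        rcases lt_trichotomy (i : ℕ) (j : ℕ) with hij | hij | hij
        · rw [hip i j (hlen e i) (hlen e j) hij]
          simp
          omega
        · have : i = j := Fin.ext hij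
          subst this
          simp
        · rw [G.adj_comm, hip j i (hlen e j) (hlen e i) hij]
          simp
          omega
      · have h4 := (h.anti e f hef _ (List.getElem_mem (hlen e i)) _
          (List.getElem_mem (hlen f j))).2
        simp [hef, h4]
  let E : P.Vert ≃ V := Equiv.ofBijective F ⟨hinj, hsurj⟩
  exact ⟨(⟨E, by intro x y; exact hadj x y⟩ : P.graph ≃g G).symm⟩

/-- from an isomorphism to a system -/
theorem iso_to {n m : ℕ} (G : SimpleGraph V) (src dst : Fin m → Fin n) (len : Fin m → ℕ)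
    (hP : ∀ e, src e ≠ dst e) (hl : ∀ e, 1 ≤ len e)
    (h : Nonempty (G ≃g (Pat.graph ⟨n, m, src, dst, len⟩))) :
    ∃ (b : Fin n → V) (A : Fin m → List V), PSys G src dst len b A := by
  classical
  obtain ⟨f0⟩ := h
  set P : Pat := ⟨n, m, src, dst, len⟩ with hPd
  let f : P.graph ≃g G := f0.symm
  have hf : ∀ x y, G.Adj (f x) (f y) ↔ P.graph.Adj x y := fun x y => f.map_adj_iff
  let A : Fin m → List V := fun e => List.ofFn (fun i : Fin (len e - 1) => f (Sum.inr ⟨e, i⟩))
  have hA : ∀ e, (A e).length = len e - 1 := fun e => List.length_ofFn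
  have hAget : ∀ (e : Fin m) (i : ℕ) (hi : i < (A e).length),
      (A e)[i] = f (Sum.inr ⟨e, ⟨i, by rw [hA] at hi; exact hi⟩⟩) := by
    intro e i hi
    exact List.getElem_ofFn _
  have hmem : ∀ (e : Fin m) (x : V), x ∈ A e → ∃ i : Fin (len e - 1), x = f (Sum.inr ⟨e, i⟩) := by
    intro e x hx
    obtain ⟨i, hi, hx'⟩ := List.mem_iff_getElem.1 hx
    rw [hAget e i hi] at hx'
    exact ⟨_, hx'.symm⟩
  have hnil : ∀ e, A e = [] ↔ len e = 1 := by
    intro e
    rw [← List.length_eq_zero_iff, hA]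
    have := hl e
    omega
  refine ⟨fun k => f (Sum.inl k), A, ?_, ?_, ?_, ?_, ?_, ?_, ?_⟩
  · intro k l hkl
    exact Sum.inl.inj (f.injective hkl)
  · intro e
    rw [hA]
    have := hl e
    omega
  · intro e he
    rw [iso_link]
    have hlb : ∀ (k : Fin n), f (Sum.inl k) ∉ A e := by
      intro k hk
      obtain ⟨i, hi⟩ := hmem e _ hk
      exact absurd (f.injective hi) (by simp)
    refine ⟨he, ⟨?_, ?_⟩, hlb _, hlb _, ?_, ?_⟩
    · apply List.nodup_ofFn.2
      intro i j hij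
      have h1 : (⟨e, i⟩ : Σ e : Fin P.m, Fin (P.len e - 1)) = ⟨e, j⟩ := Sum.inr.inj (f.injective hij)
      exact eq_of_heq (Sigma.mk.inj h1).2
    · intro i j hi hj hij
      rw [hAget e i hi, hAget e j hj, hf, iso_adj_rr]
      simp
      omega
    · intro i hi
      rw [hAget e i hi, hf, iso_adj_lr]
      have h1 := hP e
      show (src e = src e ∧ i = 0) ∨ (dst e = src e ∧ _) ↔ _
      simp [Ne.symm h1]
    · intro i hi
      rw [hAget e i hi, hf, iso_adj_lr]
      have h1 := hP e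
      have h2 := hA e
      show (src e = dst e ∧ _) ∨ (dst e = dst e ∧ i + 1 = len e - 1) ↔ i + 1 = (A e).length
      simp [h1]
      omega
  · intro e g heg x hx y hy
    obtain ⟨i, rfl⟩ := hmem e x hx
    obtain ⟨j, rfl⟩ := hmem g y hy
    refine ⟨?_, ?_⟩
    · intro hh
      have h1 : (⟨e, i⟩ : Σ e : Fin P.m, Fin (P.len e - 1)) = ⟨g, j⟩ := Sum.inr.inj (f.injective hh)
      exact heg (congrArg Sigma.fst h1)
    · rw [hf, iso_adj_rr]
      exact fun hh => heg hh.1
  · intro k e h1 h2 x hx y hy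
    rw [List.mem_singleton] at hx
    subst hx
    obtain ⟨j, rfl⟩ := hmem e y hy
    refine ⟨?_, ?_⟩
    · intro hh
      exact absurd (f.injective hh) (by simp)
    · rw [hf, iso_adj_lr]
      rintro (hh | hh)
      · exact h1 hh.1.symm
      · exact h2 hh.1.symm
  · intro k l
    rw [hf, iso_adj_ll P hP]
    apply exists_congr
    intro e
    rw [hnil]
  · intro v
    obtain ⟨x, rfl⟩ := f.surjective v
    rcases x with k | ⟨e, i⟩
    · exact Or.inl ⟨k, rfl⟩
    · refine Or.inr ⟨e, ?_⟩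
      rw [List.mem_iff_getElem]
      refine ⟨i, by rw [hA]; exact i.2, ?_⟩
      rw [hAget]

end Pool.Agent.Helper64.HG
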