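import Pool.Agent.Helper64.HG.Stmts
import Pool.Agent.Helper82.HG.Iso

/-! MP_866009_co, module ISB: a graph that is an edge and three paths is a subdivided multigraph of
the list. -/

set_option autoImplicit false

namespace Pool.Agent.Helper64.HG

theorem st_ISB : ST_ISB := by
  intro V G
  constructor
  · rintro ⟨u, w, A, B, C, h, hc⟩
    have hA : A ≠ [] := h.linkA.1
    have hB : B ≠ [] := h.linkB.1
    have hC : C ≠ [] := h.linkC.1
    have hne : u ≠ w := h.adj.ne
    refine ⟨A.length + 1, B.length + 1, C.length + 1, by have := h.lA; omega,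
      by have := h.lB; omega, by have := h.lC; omega, ?_⟩
    refine iso_of G ![0, 0, 0, 0] ![1, 1, 1, 1] ![1, A.length + 1, B.length + 1, C.length + 1]
      ![u, w] ![[], A, B, C] ?_ ⟨?_, ?_, ?_, ?_, ?_, ?_, ?_⟩
    · intro e
      fin_cases e <;> simp
    · intro k l hkl
      fin_cases k <;> fin_cases l <;> simp at hkl ⊢
      · exact hne hkl
      · exact hne hkl.symm
    · intro e
      fin_cases e <;> simp
    · intro e he
      fin_cases e
      · exact absurd rfl he
      · exact h.linkA
      · exact h.linkB
      · exact h.linkC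
    · intro e f hef
      have hn : ∀ D : List V, Anti G [] D := fun D x hx => absurd hx (by simp)
      fin_cases e <;> fin_cases f
      · exact absurd rfl hef
      · exact hn _
      · exact hn _
      · exact hn _
      · exact iso_anti_symm (hn _)
      · exact absurd rfl hef
      · exact h.AB
      · exact h.AC
      · exact iso_anti_symm (hn _)
      · exact iso_anti_symm h.AB
      · exact absurd rfl hef
      · exact h.BC
      · exact iso_anti_symm (hn _)
      · exact iso_anti_symm h.AC
      · exact iso_anti_symm h.BC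
      · exact absurd rfl hef
    · intro k e h1 h2
      fin_cases k <;> fin_cases e <;> simp at h1 h2
    · intro k l
      constructor
      · intro h4
        refine ⟨0, rfl, ?_⟩
        fin_cases k <;> fin_cases l
        · exact absurd h4 (G.loopless.irrefl _)
        · exact Or.inl ⟨rfl, rfl⟩
        · exact Or.inr ⟨rfl, rfl⟩
        · exact absurd h4 (G.loopless.irrefl _)
      · rintro ⟨e, h4, h5⟩
        fin_cases e
        · rcases h5 with ⟨rfl, rfl⟩ | ⟨rfl, rfl⟩
          · exact h.adj
          · exact h.adj.symm
        · exact absurd h4 hA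
        · exact absurd h4 hB
        · exact absurd h4 hC
    · intro v
      rcases hc v with h1 | h1 | h1 | h1 | h1
      · exact Or.inl ⟨0, h1⟩
      · exact Or.inl ⟨1, h1⟩
      · exact Or.inr ⟨1, h1⟩
      · exact Or.inr ⟨2, h1⟩
      · exact Or.inr ⟨3, h1⟩
  · rintro ⟨a, b, c, ha, hb, hc, hi⟩
    obtain ⟨x, A, h⟩ := iso_to G ![0, 0, 0, 0] ![1, 1, 1, 1] ![1, a, b, c]
      (by intro e; fin_cases e <;> simp)
      (by intro e; fin_cases e <;> simp <;> omega) hi
    have z0 : (A 0).length + 1 = 1 := h.len 0
    have l0 : (A 1).length + 1 = a := h.len 1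
    have l1 : (A 2).length + 1 = b := h.len 2
    have l2 : (A 3).length + 1 = c := h.len 3
    have n0 : A 1 ≠ [] := by
      intro h0; rw [h0] at l0; simp at l0; omega
    have n1 : A 2 ≠ [] := by
      intro h0; rw [h0] at l1; simp at l1; omega
    have n2 : A 3 ≠ [] := by
      intro h0; rw [h0] at l2; simp at l2; omega
    have z1 : A 0 = [] := by
      rw [← List.length_eq_zero_iff]; omega
    refine ⟨x 0, x 1, A 1, A 2, A 3, ⟨?_, h.link 1 n0, h.link 2 n1, h.link 3 n2,
      h.anti 1 2 (by decide), h.anti 1 3 (by decide), h.anti 2 3 (by decide), by omega, by omega,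
      by omega⟩, ?_⟩
    · rw [h.adjb]
      exact ⟨0, z1, Or.inl ⟨rfl, rfl⟩⟩
    · intro v
      rcases h.cov v with ⟨k, hk⟩ | ⟨e, he⟩
      · fin_cases k
        · exact Or.inl hk
        · exact Or.inr (Or.inl hk)
      · fin_cases e
        · have he' : v ∈ A 0 := he
          rw [z1] at he'
          exact absurd he' (by simp)
        · exact Or.inr (Or.inr (Or.inl he))
        · exact Or.inr (Or.inr (Or.inr (Or.inl he)))
        · exact Or.inr (Or.inr (Or.inr (Or.inr he)))

end Pool.Agent.Helper64.HG
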