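import Pool.Agent.Helper64.HG.Stmts
import Pool.Agent.Helper82.HG.Iso

/-! MP_866009_co, module ISE: a graph that is an ear configuration is a subdivided multigraph of
the list. -/

set_option autoImplicit false

namespace Pool.Agent.Helper64.HG

theorem st_ISE : ST_ISE := by
  intro V G
  constructor
  · rintro ⟨x0, x1, x2, F, B, C, h, hc⟩
    have hF : F ≠ [] := h.linkF.1
    have hB : B ≠ [] := h.linkB.1
    have hC : C ≠ [] := h.linkC.1
    have n01 : x0 ≠ x1 := h.adj01.ne
    have n02 : x0 ≠ x2 := h.adj02.ne
    have n12 : x1 ≠ x2 := h.ne12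
    refine ⟨F.length + 1, B.length + 1, C.length + 1, by have := h.lF; omega,
      by have := h.lB; omega, by have := h.lC; omega, ?_⟩
    refine iso_of G ![0, 0, 0, 1, 1] ![1, 2, 1, 2, 2]
      ![1, 1, F.length + 1, B.length + 1, C.length + 1]
      ![x0, x1, x2] ![[], [], F, B, C] ?_ ⟨?_, ?_, ?_, ?_, ?_, ?_, ?_⟩
    · intro e
      fin_cases e <;> simp
    · intro k l hkl
      fin_cases k <;> fin_cases l
      · rfl
      · exact absurd hkl n01
      · exact absurd hkl n02
      · exact absurd hkl n01.symm
      · rfl
      · exact absurd hkl n12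
      · exact absurd hkl n02.symm
      · exact absurd hkl n12.symm
      · rfl
    · intro e
      fin_cases e <;> simp
    · intro e he
      fin_cases e
      · exact absurd rfl he
      · exact absurd rfl he
      · exact h.linkF
      · exact h.linkB
      · exact h.linkC
    · intro e f hef
      have hn : ∀ D : List V, Anti G [] D := fun D x hx => absurd hx (by simp)
      have hm : ∀ D : List V, Anti G D [] := fun D => iso_anti_symm (hn D)
      fin_cases e <;> fin_cases f
      · exact absurd rfl hef
      · exact hn _
      · exact hn _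
      · exact hn _
      · exact hn _
      · exact hn _
      · exact absurd rfl hef
      · exact hn _
      · exact hn _
      · exact hn _
      · exact hm _
      · exact hm _
      · exact absurd rfl hef
      · exact h.FB
      · exact h.FC
      · exact hm _
      · exact hm _
      · exact iso_anti_symm h.FB
      · exact absurd rfl hef
      · exact h.BC
      · exact hm _
      · exact hm _
      · exact iso_anti_symm h.FC
      · exact iso_anti_symm h.BC
      · exact absurd rfl hef
    · intro k e h1 h2
      have hm : ∀ D : List V, Anti G D [] := fun D x _ y hy => absurd hy (by simp)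
      fin_cases k <;> fin_cases e
      · exact hm _
      · exact hm _
      · exact absurd rfl h1
      · exact h.x0B
      · exact h.x0C
      · exact hm _
      · exact hm _
      · exact absurd rfl h2
      · exact absurd rfl h1
      · exact absurd rfl h1
      · exact hm _
      · exact hm _
      · exact h.x2F
      · exact absurd rfl h2
      · exact absurd rfl h2
    · intro k l
      constructor
      · intro h4
        fin_cases k <;> fin_cases l
        · exact absurd h4 (G.loopless.irrefl _)
        · exact ⟨0, rfl, Or.inl ⟨rfl, rfl⟩⟩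
        · exact ⟨1, rfl, Or.inl ⟨rfl, rfl⟩⟩
        · exact ⟨0, rfl, Or.inr ⟨rfl, rfl⟩⟩
        · exact absurd h4 (G.loopless.irrefl _)
        · exact absurd h4 h.nadj12
        · exact ⟨1, rfl, Or.inr ⟨rfl, rfl⟩⟩
        · exact absurd ((G.adj_comm _ _).1 h4) h.nadj12
        · exact absurd h4 (G.loopless.irrefl _)
      · rintro ⟨e, h4, h5⟩
        fin_cases e
        · rcases h5 with ⟨rfl, rfl⟩ | ⟨rfl, rfl⟩
          · exact h.adj01
          · exact h.adj01.symm
        · rcases h5 with ⟨rfl, rfl⟩ | ⟨rfl, rfl⟩
          · exact h.adj02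
          · exact h.adj02.symm
        · exact absurd h4 hF
        · exact absurd h4 hB
        · exact absurd h4 hC
    · intro v
      rcases hc v with h1 | h1 | h1 | h1 | h1 | h1
      · exact Or.inl ⟨0, h1⟩
      · exact Or.inl ⟨1, h1⟩
      · exact Or.inl ⟨2, h1⟩
      · exact Or.inr ⟨2, h1⟩
      · exact Or.inr ⟨3, h1⟩
      · exact Or.inr ⟨4, h1⟩
  · rintro ⟨a, b, c, ha, hb, hc, hi⟩
    obtain ⟨x, A, h⟩ := iso_to G ![0, 0, 0, 1, 1] ![1, 2, 1, 2, 2] ![1, 1, a, b, c]
      (by intro e; fin_cases e <;> simp)
      (by intro e; fin_cases e <;> simp <;> omega) hi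
    have z0 : (A 0).length + 1 = 1 := h.len 0
    have z1 : (A 1).length + 1 = 1 := h.len 1
    have l2 : (A 2).length + 1 = a := h.len 2
    have l3 : (A 3).length + 1 = b := h.len 3
    have l4 : (A 4).length + 1 = c := h.len 4
    have n2 : A 2 ≠ [] := by
      intro h0; rw [h0] at l2; simp at l2; omega
    have n3 : A 3 ≠ [] := by
      intro h0; rw [h0] at l3; simp at l3; omega
    have n4 : A 4 ≠ [] := by
      intro h0; rw [h0] at l4; simp at l4; omega
    have y0 : A 0 = [] := by
      rw [← List.length_eq_zero_iff]; omega
    have y1 : A 1 = [] := by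
      rw [← List.length_eq_zero_iff]; omega
    refine ⟨x 0, x 1, x 2, A 2, A 3, A 4, ⟨?_, ?_, ?_, ?_, h.link 2 n2, h.link 3 n3, h.link 4 n4,
      h.anti 2 3 (by decide), h.anti 2 4 (by decide), h.anti 3 4 (by decide),
      h.antib 2 2 (by decide) (by decide), h.antib 0 3 (by decide) (by decide),
      h.antib 0 4 (by decide) (by decide), by omega, by omega, by omega⟩, ?_⟩
    · rw [h.adjb]
      exact ⟨0, y0, Or.inl ⟨rfl, rfl⟩⟩
    · rw [h.adjb]
      exact ⟨1, y1, Or.inl ⟨rfl, rfl⟩⟩
    · intro h0
      exact absurd (h.inj h0) (by decide)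
    · rw [h.adjb]
      rintro ⟨e, h0, h5⟩
      fin_cases e
      · revert h5; decide
      · revert h5; decide
      · exact n2 h0
      · exact n3 h0
      · exact n4 h0
    · intro v
      rcases h.cov v with ⟨k, hk⟩ | ⟨e, he⟩
      · fin_cases k
        · exact Or.inl hk
        · exact Or.inr (Or.inl hk)
        · exact Or.inr (Or.inr (Or.inl hk))
      · fin_cases e
        · have he' : v ∈ A 0 := he
          rw [y0] at he'
          exact absurd he' (by simp)
        · have he' : v ∈ A 1 := he
          rw [y1] at he'
          exact absurd he' (by simp)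
        · exact Or.inr (Or.inr (Or.inr (Or.inl he)))
        · exact Or.inr (Or.inr (Or.inr (Or.inr (Or.inl he))))
        · exact Or.inr (Or.inr (Or.inr (Or.inr (Or.inr he))))

end Pool.Agent.Helper64.HG
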