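import Pool.Agent.Helper64.HG.Stmts
import Pool.Agent.Helper82.HG.Iso

/-! MP_866009_co, module ISK: a graph that is a subdivided complete graph on four vertices is a
subdivided multigraph of the list. -/

set_option autoImplicit false

namespace Pool.Agent.Helper64.HG

/-- the first ends of the six edges -/
def isk_s : Fin 6 → Fin 4 := ![0, 0, 0, 1, 1, 2]

/-- the second ends of the six edges -/
def isk_d : Fin 6 → Fin 4 := ![1, 2, 3, 2, 3, 3]

theorem isk_ne (e : Fin 6) : isk_s e ≠ isk_d e := by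
  revert e; decide

theorem isk_ne2 (e f : Fin 6) (h : e ≠ f) : ¬ (isk_s e = isk_s f ∧ isk_d e = isk_d f) ∧
    ¬ (isk_s e = isk_d f ∧ isk_d e = isk_s f) := by
  revert e f; decide

theorem isk_ex (i j : Fin 4) (h : i ≠ j) :
    ∃ e, (isk_s e = i ∧ isk_d e = j) ∨ (isk_s e = j ∧ isk_d e = i) := by
  revert i j; decide

/-- the matrix of lists -/
def isk_K {V : Type} (A : Fin 6 → List V) : Fin 4 → Fin 4 → List V :=
  ![![[], A 0, A 1, A 2], ![(A 0).reverse, [], A 3, A 4],
    ![(A 1).reverse, (A 3).reverse, [], A 5],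
    ![(A 2).reverse, (A 4).reverse, (A 5).reverse, []]]

theorem isk_K1 {V : Type} (A : Fin 6 → List V) (e : Fin 6) :
    isk_K A (isk_s e) (isk_d e) = A e := by
  fin_cases e <;> rfl

theorem isk_K2 {V : Type} (A : Fin 6 → List V) (e : Fin 6) :
    isk_K A (isk_d e) (isk_s e) = (A e).reverse := by
  fin_cases e <;> rfl

theorem isk_Krev {V : Type} (A : Fin 6 → List V) (i j : Fin 4) :
    isk_K A j i = (isk_K A i j).reverse := by
  by_cases h : i = j
  · subst h
    have : isk_K A i i = [] := by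
      fin_cases i <;> rfl
    rw [this]
    rfl
  · obtain ⟨e, ⟨rfl, rfl⟩ | ⟨rfl, rfl⟩⟩ := isk_ex i j h
    · rw [isk_K1, isk_K2]
    · rw [isk_K1, isk_K2, List.reverse_reverse]

theorem isk_anti_rev {V : Type} {G : SimpleGraph V} {A B : List V} (h : Anti G A B) :
    Anti G A.reverse B := by
  intro x hx
  exact h x (by simpa using hx)

theorem isk_anti_rev' {V : Type} {G : SimpleGraph V} {A B : List V} (h : Anti G A B) :
    Anti G A B.reverse := by
  intro x hx y hy
  exact h x hx y (by simpa using hy)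

theorem st_ISK : ST_ISK := by
  intro V G l hl
  have hk4 : (k4P l) = ⟨4, 6, isk_s, isk_d, l⟩ := rfl
  rw [hk4]
  constructor
  · rintro ⟨x, A, h, ⟨e0, e1, e2, e3, e4, e5⟩, hc⟩
    refine iso_of G isk_s isk_d l x (fun e => A (isk_s e) (isk_d e)) isk_ne
      ⟨h.inj, ?_, ?_, ?_, ?_, ?_, ?_⟩
    · intro e
      fin_cases e
      · exact e0
      · exact e1
      · exact e2
      · exact e3
      · exact e4
      · exact e5
    · intro e he
      exact h.link _ _ (isk_ne e) he
    · intro e f hef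
      exact h.anti _ _ _ _ (isk_ne e) (isk_ne f) (isk_ne2 e f hef).1 (isk_ne2 e f hef).2
    · intro k e h1 h2
      exact h.antix _ _ _ (isk_ne e) h1 h2
    · intro k l
      constructor
      · intro h1
        have hkl : k ≠ l := by
          rintro rfl
          exact absurd h1 (G.loopless.irrefl _)
        have h2 : A k l = [] := by
          by_contra h3
          exact h.nedge k l hkl h3 h1
        obtain ⟨e, h3⟩ := isk_ex k l hkl
        refine ⟨e, ?_, h3⟩
        rcases h3 with ⟨h3, h4⟩ | ⟨h3, h4⟩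
        · show A (isk_s e) (isk_d e) = []
          rw [h3, h4, h2]
        · show A (isk_s e) (isk_d e) = []
          rw [h3, h4, h.rev k l, h2]
          rfl
      · rintro ⟨e, h1, ⟨rfl, rfl⟩ | ⟨rfl, rfl⟩⟩
        · exact h.edge _ _ (isk_ne e) h1
        · exact (h.edge _ _ (isk_ne e) h1).symm
    · intro v
      rcases hc v with ⟨i, hi⟩ | ⟨i, j, hij, hv⟩
      · exact Or.inl ⟨i, hi⟩
      · obtain ⟨e, ⟨rfl, rfl⟩ | ⟨rfl, rfl⟩⟩ := isk_ex i j hij
        · exact Or.inr ⟨e, hv⟩
        · refine Or.inr ⟨e, ?_⟩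
          show v ∈ A (isk_s e) (isk_d e)
          rw [h.rev (isk_d e) (isk_s e)]
          simpa using hv
  · intro hi
    obtain ⟨x, A, h⟩ := iso_to G isk_s isk_d l isk_ne hl hi
    refine ⟨x, isk_K A, ⟨h.inj, isk_Krev A, ?_, ?_, ?_, ?_, ?_⟩,
      ⟨h.len 0, h.len 1, h.len 2, h.len 3, h.len 4, h.len 5⟩, ?_⟩
    · intro i j hij h1
      rw [h.adjb]
      obtain ⟨e, he⟩ := isk_ex i j hij
      refine ⟨e, ?_, he⟩
      rcases he with ⟨rfl, rfl⟩ | ⟨rfl, rfl⟩
      · rwa [isk_K1] at h1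
      · rw [isk_K2] at h1
        simpa using h1
    · intro i j hij h1 h2
      rw [h.adjb] at h2
      obtain ⟨e, h3, ⟨rfl, rfl⟩ | ⟨rfl, rfl⟩⟩ := h2
      · rw [isk_K1] at h1
        exact h1 h3
      · rw [isk_K2] at h1
        exact h1 (by simpa using h3)
    · intro i j hij h1
      obtain ⟨e, ⟨rfl, rfl⟩ | ⟨rfl, rfl⟩⟩ := isk_ex i j hij
      · rw [isk_K1] at h1 ⊢
        exact h.link e h1
      · rw [isk_K2] at h1 ⊢
        exact iso_rev (h.link e (by simpa using h1))
    · intro i j k l hij hkl h1 h2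
      obtain ⟨e, he⟩ := isk_ex i j hij
      obtain ⟨f, hf⟩ := isk_ex k l hkl
      have hef : e ≠ f := by
        rintro rfl
        rcases he with ⟨rfl, rfl⟩ | ⟨rfl, rfl⟩ <;> rcases hf with ⟨rfl, rfl⟩ | ⟨rfl, rfl⟩
        · exact h1 ⟨rfl, rfl⟩
        · exact h2 ⟨rfl, rfl⟩
        · exact h2 ⟨rfl, rfl⟩
        · exact h1 ⟨rfl, rfl⟩
      have ha := h.anti e f hef
      rcases he with ⟨rfl, rfl⟩ | ⟨rfl, rfl⟩ <;> rcases hf with ⟨rfl, rfl⟩ | ⟨rfl, rfl⟩
      · rw [isk_K1, isk_K1]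
        exact ha
      · rw [isk_K1, isk_K2]
        exact isk_anti_rev' ha
      · rw [isk_K2, isk_K1]
        exact isk_anti_rev ha
      · rw [isk_K2, isk_K2]
        exact isk_anti_rev (isk_anti_rev' ha)
    · intro i j k hij hki hkj
      obtain ⟨e, ⟨rfl, rfl⟩ | ⟨rfl, rfl⟩⟩ := isk_ex i j hij
      · rw [isk_K1]
        exact h.antib k e hki hkj
      · rw [isk_K2]
        exact isk_anti_rev' (h.antib k e hkj hki)
    · intro v
      rcases h.cov v with ⟨k, hk⟩ | ⟨e, he⟩
      · exact Or.inl ⟨k, hk⟩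
      · refine Or.inr ⟨isk_s e, isk_d e, isk_ne e, ?_⟩
        rw [isk_K1]
        exact he

end Pool.Agent.Helper64.HG
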