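import Pool.Agent.Helper64.HG.Stmts
import Pool.Agent.Helper82.HG.Iso

/-! MP_866009_co, module IST: a graph that is a theta is a subdivided multigraph of the list. -/

set_option autoImplicit false

namespace Pool.Agent.Helper64.HG

theorem st_IST : ST_IST := by
  intro V G
  constructor
  · rintro ⟨u, w, A, B, C, h, hc⟩
    have hA : A ≠ [] := h.linkA.1
    have hB : B ≠ [] := h.linkB.1
    have hC : C ≠ [] := h.linkC.1
    refine ⟨A.length + 1, B.length + 1, C.length + 1, by have := h.lA; omega,
      by have := h.lB; omega, by have := h.lC; omega, ?_⟩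
    refine iso_of G ![0, 0, 0] ![1, 1, 1] ![A.length + 1, B.length + 1, C.length + 1] ![u, w]
      ![A, B, C] ?_ ⟨?_, ?_, ?_, ?_, ?_, ?_, ?_⟩
    · intro e
      fin_cases e <;> simp
    · intro k l hkl
      fin_cases k <;> fin_cases l <;> simp at hkl ⊢
      · exact h.ne hkl
      · exact h.ne hkl.symm
    · intro e
      fin_cases e <;> simp
    · intro e _
      fin_cases e
      · exact h.linkA
      · exact h.linkB
      · exact h.linkC
    · intro e f hef
      fin_cases e <;> fin_cases f
      · exact absurd rfl hef
      · exact h.AB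
      · exact h.AC
      · exact iso_anti_symm h.AB
      · exact absurd rfl hef
      · exact h.BC
      · exact iso_anti_symm h.AC
      · exact iso_anti_symm h.BC
      · exact absurd rfl hef
    · intro k e h1 h2
      fin_cases k <;> fin_cases e <;> simp at h1 h2
    · intro k l
      have h3 : ∀ e : Fin 3, (![A, B, C] : Fin 3 → List V) e ≠ [] := by
        intro e
        fin_cases e
        · exact hA
        · exact hB
        · exact hC
      constructor
      · intro h4
        exfalso
        fin_cases k <;> fin_cases l
        · exact G.loopless.irrefl _ h4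
        · exact h.nadj h4
        · exact h.nadj ((G.adj_comm _ _).1 h4)
        · exact G.loopless.irrefl _ h4
      · rintro ⟨e, h4, _⟩
        exact absurd h4 (h3 e)
    · intro v
      rcases hc v with h1 | h1 | h1 | h1 | h1
      · exact Or.inl ⟨0, h1⟩
      · exact Or.inl ⟨1, h1⟩
      · exact Or.inr ⟨0, h1⟩
      · exact Or.inr ⟨1, h1⟩
      · exact Or.inr ⟨2, h1⟩
  · rintro ⟨a, b, c, ha, hb, hc, hi⟩
    obtain ⟨x, A, h⟩ := iso_to G ![0, 0, 0] ![1, 1, 1] ![a, b, c]
      (by intro e; fin_cases e <;> simp)
      (by intro e; fin_cases e <;> simp <;> omega) hi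
    have l0 : (A 0).length + 1 = a := h.len 0
    have l1 : (A 1).length + 1 = b := h.len 1
    have l2 : (A 2).length + 1 = c := h.len 2
    have n0 : A 0 ≠ [] := by
      intro h0; rw [h0] at l0; simp at l0; omega
    have n1 : A 1 ≠ [] := by
      intro h0; rw [h0] at l1; simp at l1; omega
    have n2 : A 2 ≠ [] := by
      intro h0; rw [h0] at l2; simp at l2; omega
    refine ⟨x 0, x 1, A 0, A 1, A 2, ⟨?_, ?_, h.link 0 n0, h.link 1 n1, h.link 2 n2,
      h.anti 0 1 (by decide), h.anti 0 2 (by decide), h.anti 1 2 (by decide), by omega, by omega,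
      by omega⟩, ?_⟩
    · intro h0
      exact absurd (h.inj h0) (by decide)
    · rw [h.adjb]
      rintro ⟨e, h0, _⟩
      fin_cases e
      · exact n0 h0
      · exact n1 h0
      · exact n2 h0
    · intro v
      rcases h.cov v with ⟨k, hk⟩ | ⟨e, he⟩
      · fin_cases k
        · exact Or.inl hk
        · exact Or.inr (Or.inl hk)
      · fin_cases e
        · exact Or.inr (Or.inr (Or.inl he))
        · exact Or.inr (Or.inr (Or.inr (Or.inl he)))
        · exact Or.inr (Or.inr (Or.inr (Or.inr he)))

end Pool.Agent.Helper64.HG
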